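import Pool.Agent.Results.MP_dd1803_nt.RandomMaps

/-!
# The residue class of rational maps without atypical intersections

The theorem `exists_good_class` was written by helper943 (`MP_dd1803_nt.ThinSequences`); it is copied
here so that the closure stays small.
-/

set_option autoImplicit false

namespace Pool.Agent.N12.KM

open MvPolynomial Pool.Agent.W282.ZP
open Pool.Agent.Results.MP_dd1803_nt.RandomMaps

variable {n : ℕ} {q : Fin n → ℕ} {k : ℕ}

/-- The residue class of coefficient vectors without atypical intersections. -/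
theorem exists_good_class (A B : Fin n → ℂ) (q : Fin n → ℕ) (k m : ℕ) (V : Set (Fin m → ℂ))
    (hV : (idealOf V).IsPrime) (D : Ind q k → ℕ) (hD : ∀ i, 0 < D i)
    (hDq : ∀ j : (i : Fin n) × Fin (q i), q j.1 ≤ D (Sum.inl j)) (Q₀ : ℕ) (hQ₀ : 0 < Q₀)
    (c₀ : Coeffs m D) :
    ∃ (Q : ℕ) (G : Coeffs m D), 0 < Q ∧ ∀ c : Coeffs m D, (∀ i, (Q : ℤ) ∣ c i - G i) →
      (∀ i, (Q₀ : ℤ) ∣ c i - c₀ i) ∧ NoAtypical (A := A) (B := B) (pullback c V) m (zdim V) := by
  classical
  have hfin : Algebra.trdeg ℂ (MvPolynomial (Fin m) ℂ ⧸ idealOf V) < Cardinal.aleph0 :=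
    trdeg_lt_aleph0_of_finiteType
  obtain ⟨d, hd⟩ := Cardinal.lt_aleph0.1 hfin
  obtain ⟨K, Q, G, hK, hQ, hmain⟩ := Pool.Agent.TH971.SP.exists_class' (q := q) (k := k) A B D hD
    hDq (idealOf V) hd Q₀ hQ₀ c₀
  refine ⟨Q, G, hQ, fun c hc => ?_⟩
  obtain ⟨hc0, hkey⟩ := hmain c hc
  refine ⟨hc0, ?_⟩
  intro ρ s e W p hW hcl hprime hp
  obtain ⟨w, hwW, hpw, T, hT, hdimW⟩ :=
    Pool.Agent.W282.LF.generic_dim_open K W hprime hcl p hp
  obtain ⟨z, hzX, ⟨r, s', hρ, hE, a, ha, hau⟩, hwz⟩ := hW w hwW hpw
  choose E cc hcc hccP using hE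
  have hco : Pool.Agent.TH971.SP.co (A := A) (B := B) z.P z.u = z.coord := by
    funext j
    rcases j with j | j
    · exact (xCoord_eq _).symm
    · rfl
  have hho : Pool.Agent.TH971.SP.hco (A := A) (B := B) z.P z.u = z.homog := by
    funext j
    rcases j with j | j
    · by_cases h0 : z.P j.1 j.2 = 0
      · exact (if_pos h0).trans (if_pos h0).symm
      · refine (if_neg h0).trans (Eq.trans ?_ (if_neg h0).symm)
        rw [xCoord_eq]
    · rfl
  have hs : Fintype.card (Ind q k) = s := by
    rw [← Fintype.card_congr e, Fintype.card_fin]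
  have h3 := hkey z.P z.u (by
      intro f hf
      rw [hho]
      exact hzX f hf) (fun i => toE (E i)) (fun i => relMod (E i) (z.P i)) (fun i a ha => ha)
      (relTor z.u z.ne_zero) (fun a ha => ha) (T.map e.toEmbedding) (by
        rw [hco]
        have hT' : AlgebraicIndependent K (fun j : T => z.coord (e j)) := by
          convert hT using 1
          funext j
          exact (hwz j).symm
        let e' : (T.map e.toEmbedding : Finset (Ind q k)) ≃ T :=
          { toFun := fun j => ⟨e.symm j, by
              obtain ⟨t, ht, h⟩ := Finset.mem_map.1 j.2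
              rw [← h]
              simpa using ht⟩
            invFun := fun j => ⟨e j, Finset.mem_map_of_mem _ j.2⟩
            left_inv := fun j => by simp
            right_inv := fun j => by simp }
        have h5 := hT'.comp e' e'.injective
        convert h5 using 1
        funext j
        simp [e'])
  have h4 : ∀ i, r i ≤ Module.finrank (E i).O (relMod (E i) (z.P i)) := fun i =>
    le_finrank (E i) (z.P i) (cc i) (hcc i) (hccP i)
  have h5 := le_finrank_tor z.u z.ne_zero a ha hau
  have h6 : ∑ i, r i ≤ ∑ i, Module.finrank (E i).O (relMod (E i) (z.P i)) :=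
    Finset.sum_le_sum fun i _ => h4 i
  have h7 : T.card + ∑ i, Module.finrank (E i).O (relMod (E i) (z.P i)) +
      Module.finrank ℤ (relTor z.u z.ne_zero) + m ≤ s + d := by
    rw [Finset.card_map] at h3
    have hs' : Fintype.card (Pool.Agent.TH971.SP.Ix q k) = s := hs
    rw [hs'] at h3
    exact h3
  calc zdim W + (ρ : Cardinal) + (m : Cardinal)
      ≤ (T.card : Cardinal) + (ρ : Cardinal) + (m : Cardinal) := by gcongr
    _ = ((T.card + ρ + m : ℕ) : Cardinal) := by push_cast; rfl
    _ ≤ ((s + d : ℕ) : Cardinal) := by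
      have : T.card + ρ + m ≤ s + d := by omega
      exact_mod_cast this
    _ = (s : Cardinal) + zdim V := by rw [zdim, hd]; push_cast; rfl

end Pool.Agent.N12.KM
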